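import Pool.Agent.N659.HB.Stm10

/-!
Project SN, part GL: lower bounds for the transform of a law which dominates a truncated Gaussian
law.
-/

set_option autoImplicit false

namespace Pool.Agent.N136.SN.GL

open MeasureTheory Filter ProbabilityTheory Pool.Agent.N659.HB
open scoped Topology ENNReal

/-- lower bound of the density -/
noncomputable def p0 (s A : ℝ) : ℝ := gaussianPDFReal 0 ⟨s ^ 2, sq_nonneg s⟩ (A + 4)

lemma var_ne {s : ℝ} (hs : 0 < s) : (⟨s ^ 2, sq_nonneg s⟩ : NNReal) ≠ 0 := by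
  intro h
  have h1 : s ^ 2 = 0 := congrArg NNReal.toReal h
  exact pow_ne_zero 2 hs.ne' h1

lemma p0_pos {s : ℝ} (hs : 0 < s) (A : ℝ) : 0 < p0 s A := gaussianPDFReal_pos _ _ _ (var_ne hs)

lemma pdf_ge {s A : ℝ} (hA : 0 ≤ A) {t : ℝ} (h1 : -(A + 4) ≤ t) (h2 : t ≤ A + 4) :
    p0 s A ≤ gaussianPDFReal 0 ⟨s ^ 2, sq_nonneg s⟩ t := by
  unfold p0 gaussianPDFReal
  apply mul_le_mul_of_nonneg_left _ (by positivity)
  apply Real.exp_le_exp.2
  apply div_le_div_of_nonneg_right _ (by positivity)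
  have : t ^ 2 ≤ (A + 4) ^ 2 := by
    apply sq_le_sq'
    · exact h1
    · exact h2
  simpa using this

lemma mass {s A : ℝ} (hs : 0 < s) (hA : 0 ≤ A) {μ : Measure ℝ} [IsProbabilityMeasure μ] {w : ℝ}
    (hw : A + 4 ≤ w) (hμ : (gs s).restrict (Set.Icc (-w) w) ≤ μ) {a b : ℝ} (ha : -(A + 4) ≤ a)
    (hab : a ≤ b) (hb : b ≤ A + 4) : p0 s A * (b - a) ≤ μ.real (Set.Icc a b) := by
  have h1 := hμ (Set.Icc a b)
  rw [Measure.restrict_apply measurableSet_Icc] at h1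
  have h2 : Set.Icc a b ∩ Set.Icc (-w) w = Set.Icc a b := by
    apply Set.inter_eq_left.2
    apply Set.Icc_subset_Icc <;> linarith
  rw [h2] at h1
  unfold gs at h1
  rw [gaussianReal_apply _ (var_ne hs)] at h1
  have h3 : ENNReal.ofReal (p0 s A * (b - a))
      ≤ ∫⁻ x in Set.Icc a b, gaussianPDF 0 ⟨s ^ 2, sq_nonneg s⟩ x := by
    have h4 : ∫⁻ _ in Set.Icc a b, ENNReal.ofReal (p0 s A) = ENNReal.ofReal (p0 s A * (b - a)) := by
      rw [setLIntegral_const, Real.volume_Icc, ← ENNReal.ofReal_mul (p0_pos hs A).le]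
    rw [← h4]
    apply setLIntegral_mono (measurable_gaussianPDF _ _)
    intro x hx
    exact ENNReal.ofReal_le_ofReal (pdf_ge hA (ha.trans hx.1) (hx.2.trans hb))
  have h5 := h3.trans h1
  unfold Measure.real
  rw [← ENNReal.ofReal_le_ofReal_iff ENNReal.toReal_nonneg,
    ENNReal.ofReal_toReal (measure_ne_top _ _)]
  exact h5

lemma R_im {ζ : ℂ} (hζ : 0 < ζ.im) (t : ℝ) :
    (1 / ((t : ℂ) - ζ)).im = ζ.im * ‖1 / ((t : ℂ) - ζ)‖ ^ 2 := by
  rw [norm_div, norm_one, div_pow, one_pow, ← Complex.normSq_eq_norm_sq, one_div, Complex.inv_im]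
  simp only [Complex.sub_im, Complex.ofReal_im]
  ring

lemma sub_ne {ζ : ℂ} (hζ : 0 < ζ.im) (t : ℝ) : (t : ℂ) - ζ ≠ 0 := by
  intro h
  have := congrArg Complex.im h
  simp only [Complex.sub_im, Complex.ofReal_im, Complex.zero_im] at this
  linarith

lemma R_bound {ζ : ℂ} (hζ : 0 < ζ.im) (t : ℝ) : ‖1 / ((t : ℂ) - ζ)‖ ≤ 1 / ζ.im := by
  rw [norm_div, norm_one]
  apply one_div_le_one_div_of_le hζ
  have := Complex.abs_im_le_norm ((t : ℂ) - ζ)
  simp only [Complex.sub_im, Complex.ofReal_im, zero_sub, abs_neg, abs_of_pos hζ] at this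
  exact this

lemma R_cont {ζ : ℂ} (hζ : 0 < ζ.im) : Continuous (fun t : ℝ => 1 / ((t : ℂ) - ζ)) := by
  apply Continuous.div continuous_const (by fun_prop)
  exact sub_ne hζ

lemma R_int {ζ : ℂ} (hζ : 0 < ζ.im) (μ : Measure ℝ) [IsProbabilityMeasure μ] :
    Integrable (fun t : ℝ => 1 / ((t : ℂ) - ζ)) μ :=
  Integrable.of_bound (R_cont hζ).aestronglyMeasurable (1 / ζ.im)
    (Eventually.of_forall (R_bound hζ))

lemma D_int {ζ : ℂ} (hζ : 0 < ζ.im) (m : ℂ) (μ : Measure ℝ) [IsProbabilityMeasure μ] :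
    Integrable (fun t : ℝ => ‖1 / ((t : ℂ) - ζ) - m‖ ^ 2) μ := by
  apply Integrable.of_bound ((((R_cont hζ).sub continuous_const).norm).pow 2).aestronglyMeasurable
    ((1 / ζ.im + ‖m‖) ^ 2)
  apply Eventually.of_forall
  intro t
  rw [Real.norm_eq_abs, abs_of_nonneg (sq_nonneg _)]
  apply pow_le_pow_left₀ (norm_nonneg _)
  exact (norm_sub_le _ _).trans (by linarith [R_bound hζ t])

lemma var_id {ζ : ℂ} (hζ : 0 < ζ.im) (μ : Measure ℝ) [IsProbabilityMeasure μ] :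
    ∫ t : ℝ, ‖1 / ((t : ℂ) - ζ) - hm μ ζ‖ ^ 2 ∂μ
      = ∫ t : ℝ, ‖1 / ((t : ℂ) - ζ)‖ ^ 2 ∂μ - ‖hm μ ζ‖ ^ 2 := by
  set m := hm μ ζ with hm'
  have hI := R_int hζ μ
  have hre : ∫ t : ℝ, (1 / ((t : ℂ) - ζ)).re ∂μ = m.re := by
    have := Complex.reCLM.integral_comp_comm hI
    simp only [Complex.reCLM_apply] at this
    exact this
  have him : ∫ t : ℝ, (1 / ((t : ℂ) - ζ)).im ∂μ = m.im := by
    have := Complex.imCLM.integral_comp_comm hI
    simp only [Complex.imCLM_apply] at this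
    exact this
  have hIre : Integrable (fun t : ℝ => (1 / ((t : ℂ) - ζ)).re) μ := hI.re
  have hIim : Integrable (fun t : ℝ => (1 / ((t : ℂ) - ζ)).im) μ := hI.im
  have hsq : Integrable (fun t : ℝ => ‖1 / ((t : ℂ) - ζ)‖ ^ 2) μ := by
    simpa using D_int hζ 0 μ
  have e : ∀ t : ℝ, ‖1 / ((t : ℂ) - ζ) - m‖ ^ 2 = ‖1 / ((t : ℂ) - ζ)‖ ^ 2
      - (2 * m.re * (1 / ((t : ℂ) - ζ)).re + 2 * m.im * (1 / ((t : ℂ) - ζ)).im - ‖m‖ ^ 2) := by
    intro t
    generalize 1 / ((t : ℂ) - ζ) = z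
    rw [← Complex.normSq_eq_norm_sq, ← Complex.normSq_eq_norm_sq, ← Complex.normSq_eq_norm_sq,
      Complex.normSq_apply, Complex.normSq_apply, Complex.normSq_apply, Complex.sub_re,
      Complex.sub_im]
    ring
  have hm2 : ‖m‖ ^ 2 = m.re * m.re + m.im * m.im := by
    rw [← Complex.normSq_eq_norm_sq, Complex.normSq_apply]
  have h1 : Integrable (fun t : ℝ => 2 * m.re * (1 / ((t : ℂ) - ζ)).re) μ := hIre.const_mul _
  have h2 : Integrable (fun t : ℝ => 2 * m.im * (1 / ((t : ℂ) - ζ)).im) μ := hIim.const_mul _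
  have h3 : Integrable (fun t : ℝ => 2 * m.re * (1 / ((t : ℂ) - ζ)).re
      + 2 * m.im * (1 / ((t : ℂ) - ζ)).im) μ := h1.add h2
  have h4 : Integrable (fun _ : ℝ => ‖m‖ ^ 2) μ := integrable_const _
  have h5 : Integrable (fun t : ℝ => 2 * m.re * (1 / ((t : ℂ) - ζ)).re
      + 2 * m.im * (1 / ((t : ℂ) - ζ)).im - ‖m‖ ^ 2) μ := h3.sub h4
  simp only [e]
  rw [integral_sub hsq h5, integral_sub h3 h4, integral_add h1 h2, integral_const_mul,
    integral_const_mul, hre, him, integral_const, probReal_univ, one_smul, hm2]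
  ring

lemma im_id {ζ : ℂ} (hζ : 0 < ζ.im) (μ : Measure ℝ) [IsProbabilityMeasure μ] :
    (hm μ ζ).im = ζ.im * ∫ t : ℝ, ‖1 / ((t : ℂ) - ζ)‖ ^ 2 ∂μ := by
  have him : ∫ t : ℝ, (1 / ((t : ℂ) - ζ)).im ∂μ = (hm μ ζ).im := by
    have := Complex.imCLM.integral_comp_comm (R_int hζ μ)
    simp only [Complex.imCLM_apply] at this
    exact this
  rw [← him, ← integral_const_mul]
  exact integral_congr_ae (Eventually.of_forall fun t => R_im hζ t)

/-- the distance from `ζ` -/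
lemma dist_sq (ζ : ℂ) (t : ℝ) : ‖(t : ℂ) - ζ‖ ^ 2 = (t - ζ.re) ^ 2 + ζ.im ^ 2 := by
  rw [← Complex.normSq_eq_norm_sq, Complex.normSq_apply]
  simp only [Complex.sub_re, Complex.sub_im, Complex.ofReal_re, Complex.ofReal_im]
  ring

lemma set_lower {μ : Measure ℝ} [IsProbabilityMeasure μ] {f : ℝ → ℝ} (hf : Integrable f μ)
    (h0 : ∀ t, 0 ≤ f t) {a b κ : ℝ} (hκ : ∀ t ∈ Set.Icc a b, κ ≤ f t) :
    κ * μ.real (Set.Icc a b) ≤ ∫ t, f t ∂μ := by
  have h1 : ∫ t in Set.Icc a b, f t ∂μ ≤ ∫ t, f t ∂μ :=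
    setIntegral_le_integral hf (Eventually.of_forall h0)
  have h2 : ∫ _ in Set.Icc a b, κ ∂μ ≤ ∫ t in Set.Icc a b, f t ∂μ :=
    setIntegral_mono_on (integrable_const _).integrableOn hf.integrableOn measurableSet_Icc hκ
  rw [setIntegral_const, smul_eq_mul, mul_comm] at h2
  exact h2.trans h1

/-- two intervals on which the resolvent is far apart -/
lemma far {ζ : ℂ} (hζ : 0 < ζ.im) (hζ2 : ζ.im ≤ 2) {t t' : ℝ}
    (ht : t ∈ Set.Icc ζ.re (ζ.re + ζ.im / 2)) (ht' : t' ∈ Set.Icc (ζ.re + 2) (ζ.re + 3)) :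
    4 / (65 * ζ.im ^ 2) ≤ ‖1 / ((t : ℂ) - ζ) - 1 / ((t' : ℂ) - ζ)‖ ^ 2 := by
  have e : 1 / ((t : ℂ) - ζ) - 1 / ((t' : ℂ) - ζ) = ((t' - t : ℝ) : ℂ) / (((t : ℂ) - ζ) * ((t' : ℂ) - ζ)) := by
    have h1 := sub_ne hζ t
    have h2 := sub_ne hζ t'
    push_cast
    field_simp
    ring
  rw [e, norm_div, norm_mul, div_pow, mul_pow, dist_sq, dist_sq, Complex.norm_real, Real.norm_eq_abs,
    sq_abs]
  have h1 : (t - ζ.re) ^ 2 + ζ.im ^ 2 ≤ 5 / 4 * ζ.im ^ 2 := by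
    have h3 : (t - ζ.re) ^ 2 ≤ (ζ.im / 2) ^ 2 :=
      pow_le_pow_left₀ (by linarith [ht.1]) (by linarith [ht.2]) 2
    nlinarith
  have h2 : (t' - ζ.re) ^ 2 + ζ.im ^ 2 ≤ 13 := by
    have h3 : (t' - ζ.re) ^ 2 ≤ 3 ^ 2 :=
      pow_le_pow_left₀ (by linarith [ht'.1]) (by linarith [ht'.2]) 2
    have h4 : ζ.im ^ 2 ≤ 2 ^ 2 := pow_le_pow_left₀ hζ.le hζ2 2
    linarith
  have h3 : 1 ≤ (t' - t) ^ 2 := by
    have : 1 ≤ t' - t := by linarith [ht.2, ht'.1]
    nlinarith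
  have h5 : 0 < ζ.im ^ 2 := by positivity
  rw [div_le_div_iff₀ (by positivity) (by positivity)]
  have h6 : ((t - ζ.re) ^ 2 + ζ.im ^ 2) * ((t' - ζ.re) ^ 2 + ζ.im ^ 2)
      ≤ 5 / 4 * ζ.im ^ 2 * 13 :=
    mul_le_mul h1 h2 (by positivity) (by positivity)
  nlinarith

theorem main : S_GL := by
  intro s A hs hA
  refine ⟨p0 s A / 130, by have := p0_pos hs A; positivity, ?_⟩
  intro μ _ w hw _ hμ ζ hx hy hy2
  have hp := p0_pos hs A
  obtain ⟨hx1, hx2⟩ := abs_le.1 hx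
  have hm1 : p0 s A * (ζ.im / 2) ≤ μ.real (Set.Icc ζ.re (ζ.re + ζ.im / 2)) := by
    have := mass hs hA hw hμ (a := ζ.re) (b := ζ.re + ζ.im / 2) (by linarith) (by linarith)
      (by linarith)
    simpa using this
  have hm2 : p0 s A * 1 ≤ μ.real (Set.Icc (ζ.re + 2) (ζ.re + 3)) := by
    have := mass hs hA hw hμ (a := ζ.re + 2) (b := ζ.re + 3) (by linarith) (by linarith)
      (by linarith)
    have e : ζ.re + 3 - (ζ.re + 2) = 1 := by ring
    rwa [e] at this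
  -- first bound
  have hfirst : p0 s A / 130 ≤ (hm μ ζ).im := by
    rw [im_id hy]
    have h1 := set_lower (μ := μ) (f := fun t : ℝ => ‖1 / ((t : ℂ) - ζ)‖ ^ 2)
      (by simpa using D_int hy 0 μ) (fun t => by positivity) (a := ζ.re) (b := ζ.re + ζ.im / 2)
      (κ := 4 / (5 * ζ.im ^ 2)) (by
        intro t ht
        rw [norm_div, norm_one, div_pow, one_pow, dist_sq]
        have h3 : (t - ζ.re) ^ 2 ≤ (ζ.im / 2) ^ 2 :=
          pow_le_pow_left₀ (by linarith [ht.1]) (by linarith [ht.2]) 2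
        rw [div_le_div_iff₀ (by positivity) (by positivity)]
        nlinarith)
    have h2 : 4 / (5 * ζ.im ^ 2) * (p0 s A * (ζ.im / 2))
        ≤ ∫ t : ℝ, ‖1 / ((t : ℂ) - ζ)‖ ^ 2 ∂μ :=
      (mul_le_mul_of_nonneg_left hm1 (by positivity)).trans h1
    have h3 := mul_le_mul_of_nonneg_left h2 hy.le
    have h4 : ζ.im * (4 / (5 * ζ.im ^ 2) * (p0 s A * (ζ.im / 2))) = 2 / 5 * p0 s A := by
      field_simp
      norm_num
    rw [h4] at h3
    linarith
  refine ⟨hfirst, ?_⟩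
  -- the variance
  have hvar : p0 s A / 130 ≤ ζ.im * ∫ t : ℝ, ‖1 / ((t : ℂ) - ζ) - hm μ ζ‖ ^ 2 ∂μ := by
    set m := hm μ ζ with hm'
    set δ : ℝ := √(4 / (65 * ζ.im ^ 2)) with hδ
    have hδ2 : δ ^ 2 = 4 / (65 * ζ.im ^ 2) := Real.sq_sqrt (by positivity)
    have hδ0 : 0 ≤ δ := Real.sqrt_nonneg _
    have hfar : ∀ t ∈ Set.Icc ζ.re (ζ.re + ζ.im / 2), ∀ t' ∈ Set.Icc (ζ.re + 2) (ζ.re + 3),
        δ ≤ ‖1 / ((t : ℂ) - ζ) - 1 / ((t' : ℂ) - ζ)‖ := by
      intro t ht t' ht'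
      have := far hy hy2 ht ht'
      rw [← hδ2] at this
      exact le_of_sq_le_sq this (norm_nonneg _)
    have hκ : (δ / 2) ^ 2 = 1 / (65 * ζ.im ^ 2) := by
      rw [div_pow, hδ2]
      field_simp
      norm_num
    have hcase : 1 / (65 * ζ.im ^ 2) * (p0 s A * (ζ.im / 2))
        ≤ ∫ t : ℝ, ‖1 / ((t : ℂ) - ζ) - m‖ ^ 2 ∂μ := by
      by_cases hc : ∃ t ∈ Set.Icc ζ.re (ζ.re + ζ.im / 2), ‖1 / ((t : ℂ) - ζ) - m‖ < δ / 2
      · obtain ⟨t, ht, hc⟩ := hc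
        have h1 := set_lower (μ := μ) (D_int hy m μ) (fun t => by positivity) (a := ζ.re + 2)
          (b := ζ.re + 3) (κ := (δ / 2) ^ 2) (by
            intro t' ht'
            apply pow_le_pow_left₀ (by positivity)
            have h2 := hfar t ht t' ht'
            have h3 : ‖1 / ((t : ℂ) - ζ) - 1 / ((t' : ℂ) - ζ)‖
                ≤ ‖1 / ((t : ℂ) - ζ) - m‖ + ‖1 / ((t' : ℂ) - ζ) - m‖ := by
              have : 1 / ((t : ℂ) - ζ) - 1 / ((t' : ℂ) - ζ)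
                  = (1 / ((t : ℂ) - ζ) - m) - (1 / ((t' : ℂ) - ζ) - m) := by ring
              rw [this]
              exact norm_sub_le _ _
            linarith)
        rw [hκ] at h1
        refine le_trans ?_ h1
        apply mul_le_mul_of_nonneg_left _ (by positivity)
        refine le_trans ?_ hm2
        apply mul_le_mul_of_nonneg_left _ hp.le
        linarith
      · push Not at hc
        have h1 := set_lower (μ := μ) (D_int hy m μ) (fun t => by positivity) (a := ζ.re)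
          (b := ζ.re + ζ.im / 2) (κ := (δ / 2) ^ 2) (by
            intro t ht
            exact pow_le_pow_left₀ (by positivity) (hc t ht) 2)
        rw [hκ] at h1
        exact (mul_le_mul_of_nonneg_left hm1 (by positivity)).trans h1
    have h3 := mul_le_mul_of_nonneg_left hcase hy.le
    have h4 : ζ.im * (1 / (65 * ζ.im ^ 2) * (p0 s A * (ζ.im / 2))) = p0 s A / 130 := by
      field_simp
      norm_num
    rw [h4] at h3
    exact h3
  have him : 0 < (hm μ ζ).im := lt_of_lt_of_le (by positivity) hfirst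
  have hne : hm μ ζ ≠ 0 := by
    intro h
    rw [h] at him
    simp at him
  have hid : (1 / hm μ ζ + ζ).im * ‖hm μ ζ‖ ^ 2 = -(hm μ ζ).im + ζ.im * ‖hm μ ζ‖ ^ 2 := by
    rw [Complex.add_im, one_div, Complex.inv_im, ← Complex.normSq_eq_norm_sq]
    have : Complex.normSq (hm μ ζ) ≠ 0 := by simpa using hne
    field_simp
  rw [hid, im_id hy]
  rw [var_id hy, mul_sub] at hvar
  linarith

end Pool.Agent.N136.SN.GL
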